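import Pool.Agent.W5h35.GB.Tri

/-!
# The integral formula for Tricomi's function
-/

set_option autoImplicit false

open Filter Topology Set MeasureTheory

namespace Pool.Agent.W5h35.GB

lemma integral_gst {s : ℂ} (hs : 0 < s.re) (α : ℂ) :
    gst s α = (∫ u in Ioc (0 : ℝ) 1, (u : ℂ) ^ (s - 1) * Complex.exp (-α * u)) / Complex.Gamma s := by
  have hs0 : s ≠ 0 := by rintro rfl; simp at hs
  let F : ℕ → ℝ → ℂ := fun k u => (-α) ^ k / (k.factorial : ℂ) * (u : ℂ) ^ (s - 1 + k)
  have hint : ∀ k : ℕ, IntegrableOn (fun u : ℝ => (u : ℂ) ^ (s - 1 + k)) (Ioc 0 1) := by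
    intro k
    have h := intervalIntegral.intervalIntegrable_cpow' (a := 0) (b := 1) (r := s - 1 + k) (by
      simp only [Complex.add_re, Complex.sub_re, Complex.one_re, Complex.natCast_re]
      have : (0 : ℝ) ≤ k := by positivity
      linarith)
    rwa [intervalIntegrable_iff_integrableOn_Ioc_of_le zero_le_one] at h
  have hval : ∀ k : ℕ, ∫ u in Ioc (0 : ℝ) 1, (u : ℂ) ^ (s - 1 + k) = 1 / (s + k) := by
    intro k
    rw [← intervalIntegral.integral_of_le zero_le_one, integral_cpow]
    · have h1 : s - 1 + k + 1 = s + k := by ring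
      have h2 : s + (k : ℂ) ≠ 0 := by
        intro h0
        have h3 := congrArg Complex.re h0
        simp only [Complex.add_re, Complex.natCast_re, Complex.zero_re] at h3
        have : (0 : ℝ) ≤ k := by positivity
        linarith
      rw [h1, Complex.ofReal_one, Complex.one_cpow, Complex.ofReal_zero, Complex.zero_cpow h2, sub_zero]
    · left
      simp only [Complex.add_re, Complex.sub_re, Complex.one_re, Complex.natCast_re]
      have : (0 : ℝ) ≤ k := by positivity
      linarith
  have hnorm : ∀ k : ℕ, ∫ u in Ioc (0 : ℝ) 1, ‖F k u‖ ≤ ‖α‖ ^ k / k.factorial * (1 / s.re) := by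
    intro k
    have h1 : ∀ u ∈ Ioc (0 : ℝ) 1, ‖F k u‖ ≤ ‖α‖ ^ k / k.factorial * u ^ (s.re - 1) := by
      intro u hu
      simp only [F]
      rw [norm_mul, norm_div, norm_pow, norm_neg, Complex.norm_natCast, Complex.norm_cpow_eq_rpow_re_of_pos hu.1]
      refine mul_le_mul_of_nonneg_left ?_ (by positivity)
      refine Real.rpow_le_rpow_of_exponent_ge hu.1 hu.2 ?_
      simp only [Complex.add_re, Complex.sub_re, Complex.one_re, Complex.natCast_re]
      have : (0 : ℝ) ≤ k := by positivity
      linarith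
    have h2 : IntegrableOn (fun u : ℝ => u ^ (s.re - 1)) (Ioc 0 1) := by
      have h := intervalIntegral.intervalIntegrable_rpow' (a := 0) (b := 1) (r := s.re - 1) (by linarith)
      rwa [intervalIntegrable_iff_integrableOn_Ioc_of_le zero_le_one] at h
    have h3 : ∫ u in Ioc (0 : ℝ) 1, u ^ (s.re - 1) = 1 / s.re := by
      rw [← intervalIntegral.integral_of_le zero_le_one, integral_rpow]
      · rw [sub_add_cancel, Real.one_rpow, Real.zero_rpow hs.ne', sub_zero]
      · left; linarith
    refine (setIntegral_mono_on ((hint k).const_mul _).norm (h2.const_mul _) measurableSet_Ioc h1).trans ?_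
    rw [integral_const_mul, h3]
  have hsum : HasSum (fun k : ℕ => ∫ u in Ioc (0 : ℝ) 1, F k u) (∫ u in Ioc (0 : ℝ) 1, ∑' k, F k u) := by
    refine hasSum_integral_of_summable_integral_norm (fun k => (hint k).const_mul _) ?_
    refine Summable.of_nonneg_of_le (fun k => integral_nonneg fun u => norm_nonneg _) hnorm ?_
    exact (Real.summable_pow_div_factorial ‖α‖).mul_right _
  have h1 : ∫ u in Ioc (0 : ℝ) 1, ∑' k, F k u = ∫ u in Ioc (0 : ℝ) 1, (u : ℂ) ^ (s - 1) * Complex.exp (-α * u) := by
    refine setIntegral_congr_fun measurableSet_Ioc fun u hu => ?_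
    have hu0 : (u : ℂ) ≠ 0 := by exact_mod_cast hu.1.ne'
    have h2 : (fun k => F k u) = fun k : ℕ => (u : ℂ) ^ (s - 1) * ((-α * u) ^ k / k.factorial) := by
      funext k
      simp only [F]
      rw [Complex.cpow_add _ _ hu0, Complex.cpow_natCast, mul_pow]
      ring
    simp only [h2]
    rw [tsum_mul_left, Complex.exp_eq_exp_ℂ, NormedSpace.exp_eq_tsum_div]
  have h2 : (fun k : ℕ => ∫ u in Ioc (0 : ℝ) 1, F k u) = fun k : ℕ => (-α) ^ k / (k.factorial * (s + k)) := by
    funext k
    simp only [F]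
    rw [integral_const_mul, hval]
    rw [div_mul_div_comm, mul_one]
  rw [h1, h2] at hsum
  have h3 := hsum.tsum_eq
  have h4 : ∑' k : ℕ, (-α) ^ k / (k.factorial * (s + k)) = 1 / s + ∑' k : ℕ, (-α) ^ (k + 1) / ((k + 1).factorial * (s + (k + 1))) := by
    rw [hsum.summable.tsum_eq_zero_add]
    congr 1
    · simp
    · refine tsum_congr fun k => ?_
      push_cast
      rfl
  have h5 : Q s α = s * ∑' k : ℕ, (-α) ^ k / (k.factorial * (s + k)) := by
    rw [h4, Q, mul_add, mul_one_div_cancel hs0, ← tsum_mul_left]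
    congr 1
    refine tsum_congr fun k => ?_
    ring
  have h6 : Complex.Gamma s ≠ 0 := Complex.Gamma_ne_zero_of_re_pos hs
  rw [gst, h5, h3, Complex.Gamma_add_one s hs0]
  field_simp

end Pool.Agent.W5h35.GB
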