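import Pool.Agent.W5h35.GB.Cnt
import Pool.Agent.W5h35.GB.Int

/-!
# Final forms: continuity, set versions of the counting theorem
-/

set_option autoImplicit false

open Filter Topology Set

namespace Pool.Agent.W5h35.GB

open Pool.Agent.W5h35.GA
open Pool.Agent.R352.E (cc zt)

lemma aQ_cont (n : ℕ) : Continuous (fun α => aQ α n) := by
  unfold aQ
  split_ifs
  · exact continuous_const
  · exact continuous_const.mul (Ec_diff n).continuous

lemma qf_cont (n : ℕ) : Continuous (fun α => qf (n + 1) α) := by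
  induction n using Nat.strong_induction_on with
  | _ n ih =>
    have h1 : (fun α => qf (n + 1) α) = fun α => n.factorial * (((n : ℂ) + 1) * aQ α (n + 1) -
        ∑ p ∈ (Finset.HasAntidiagonal.antidiagonal n).erase (0, n), aQ α p.1 * (qf (p.2 + 1) α / p.2.factorial)) := by
      funext α
      have h2 := qf_rec α n
      rw [← Finset.add_sum_erase _ _ (show ((0, n) : ℕ × ℕ) ∈ Finset.HasAntidiagonal.antidiagonal n by simp)] at h2
      rw [h2]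
      have h4 : (n.factorial : ℂ) ≠ 0 := by exact_mod_cast n.factorial_ne_zero
      simp only [aQ, if_true]
      field_simp
      ring
    rw [h1]
    refine continuous_const.mul ((continuous_const.mul (aQ_cont _)).sub (continuous_finsetSum _ fun p hp => ?_))
    obtain ⟨hp1, hp2⟩ := Finset.mem_erase.1 hp
    have hp3 := Finset.HasAntidiagonal.mem_antidiagonal.1 hp2
    have hlt : p.2 < n := by
      rcases Nat.eq_zero_or_pos p.1 with h | h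
      · exact absurd (Prod.ext h (by simp only; omega)) hp1
      · omega
    exact (aQ_cont _).mul ((ih p.2 hlt).div_const _)

lemma lam_cont (n : ℕ) (hn : 1 ≤ n) : Continuous (lam n) := by
  obtain ⟨m, rfl⟩ : ∃ m, n = m + 1 := ⟨n - 1, by omega⟩
  have h1 : lam (m + 1) = fun α => qf (m + 1) α - ((cc m : ℝ) : ℂ) := funext fun α => lam_eq m α
  rw [h1]
  exact (qf_cont m).sub continuous_const

lemma Tr_tendsto {n : ℕ} (hn : 2 ≤ n) : Tendsto (Tr n) (𝓝 0) (𝓝 (Tr n 0)) := by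
  unfold Tr
  have h1 := (lam_cont (2 * n) (by omega)).tendsto 0
  have h2 := (lam_cont n (by omega)).tendsto 0
  exact (h1.div (h2.pow 2) (pow_ne_zero _ (lam_zero_ne hn))).const_mul _

/-- the generators of the field -/
def gens (O : Set ℕ) : Set ℂ := {x | ∃ m : ℕ, 1 ≤ m ∧ m ∉ dbl O ∧ ∃ β : ℂ, IsAlgebraic ℚ β ∧ x = lam m β - lam m 0}

lemma cl_gens (O : Set ℕ) : cl (gens O) = KK O := by
  refine le_antisymm (cl_le ?_) (cl_mono ?_)
  · rintro x ⟨m, hm, hmO, β, hβ, rfl⟩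
    by_cases h0 : β = 0
    · rw [h0, sub_self]
      exact (cl _).zero_mem
    · refine subset_cl _ ⟨(m, β), ⟨⟨hm, hβ, h0⟩, hmO⟩, ?_⟩
      obtain ⟨k, rfl⟩ : ∃ k, m = k + 1 := ⟨m - 1, by omega⟩
      rw [lam_sub]
      rfl
  · rintro x ⟨⟨m, β⟩, ⟨⟨hm, hβ, h0⟩, hmO⟩, rfl⟩
    refine ⟨m, hm, hmO, β, hβ, ?_⟩
    obtain ⟨k, rfl⟩ : ∃ k, m = k + 1 := ⟨m - 1, by simp only at hm; omega⟩
    rw [lam_sub]
    rfl

lemma mem_KK {O : Set ℕ} {x : ℂ} : x ∈ KK O ↔ IsAlgebraic (IntermediateField.adjoin Phi (gens O)) x := by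
  rw [← cl_gens, mem_cl]

/-- set version -/
theorem count_set (O : Set ℕ) (hO : ∀ n ∈ O, Odd n ∧ 3 ≤ n) (S : Set (Option ((ℕ × ℂ) ⊕ (ℕ × ℂ))))
    (h0 : none ∈ S → (Real.pi : ℂ) ∈ KK O)
    (h1 : ∀ p, some (Sum.inl p) ∈ S → p.1 ∈ O ∧ IsAlgebraic ℚ p.2 ∧ p.2 ≠ 0 ∧ lam p.1 p.2 ≠ 0 ∧ Tr p.1 p.2 ∈ KK O)
    (h2 : ∀ p, some (Sum.inr p) ∈ S → p.1 ∈ O ∧ IsAlgebraic ℚ p.2 ∧ p.2 ≠ 0 ∧ lam p.1 p.2 ∈ KK O) :
    S.encard ≤ 1 + {n | n ∈ O ∧ Tr n 0 ∉ KK O}.encard := by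
  by_cases hfin : {n | n ∈ O ∧ Tr n 0 ∉ KK O}.Finite
  · have e : {n | n ∈ O ∧ Tr n 0 ∉ KK O}.encard = (hfin.toFinset.card : ℕ∞) := by
      rw [← encard_coe_eq_coe_finsetCard, hfin.coe_toFinset]
    rw [e]
    have h3 := Pool.Agent.R352.E.encard_le_of_finset S (1 + hfin.toFinset.card) fun t ht =>
      count_ratio O hO hfin.toFinset (fun n hn hn' => by
        by_contra hcon
        exact hn' (hfin.mem_toFinset.2 ⟨hn, hcon⟩)) t (fun h => h0 (ht h)) (fun p h => h1 p (ht h)) (fun p h => h2 p (ht h))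
    rw [Nat.cast_add, Nat.cast_one] at h3
    exact h3
  · have e : {n | n ∈ O ∧ Tr n 0 ∉ KK O}.encard = ⊤ := Set.Infinite.encard_eq hfin
    rw [e, add_top]
    exact le_top

/-- ratios only, with the argument `0` -/
theorem count_ratios (O : Set ℕ) (hO : ∀ n ∈ O, Odd n ∧ 3 ≤ n) :
    {p : ℕ × ℂ | p.1 ∈ O ∧ IsAlgebraic ℚ p.2 ∧ lam p.1 p.2 ≠ 0 ∧ Tr p.1 p.2 ∈ KK O}.encard ≤ O.encard + 1 := by
  let A : Set (ℕ × ℂ) := {p | p.1 ∈ O ∧ IsAlgebraic ℚ p.2 ∧ lam p.1 p.2 ≠ 0 ∧ Tr p.1 p.2 ∈ KK O}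
  let A0 : Set ℕ := {n | n ∈ O ∧ Tr n 0 ∈ KK O}
  let A1 : Set (ℕ × ℂ) := {p | p.1 ∈ O ∧ IsAlgebraic ℚ p.2 ∧ p.2 ≠ 0 ∧ lam p.1 p.2 ≠ 0 ∧ Tr p.1 p.2 ∈ KK O}
  have h1 : A ⊆ (fun n => ((n, 0) : ℕ × ℂ)) '' A0 ∪ A1 := by
    rintro ⟨n, α⟩ ⟨a1, a2, a3, a4⟩
    by_cases h : α = 0
    · left
      subst h
      exact ⟨n, ⟨a1, a4⟩, rfl⟩
    · right
      exact ⟨a1, a2, h, a3, a4⟩
  have h2 : A1.encard ≤ 1 + {n | n ∈ O ∧ Tr n 0 ∉ KK O}.encard := by
    have h3 := count_set O hO ((fun p => some (Sum.inl p)) '' A1) (by rintro ⟨p, -, h⟩; simp at h)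
      (by rintro p ⟨q, hq, h⟩; simp only [Option.some.injEq, Sum.inl.injEq] at h; rw [← h]; exact hq)
      (by rintro p ⟨q, hq, h⟩; simp at h)
    rwa [Function.Injective.encard_image] at h3
    intro p q h
    simpa using h
  have h3 : A0.encard + {n | n ∈ O ∧ Tr n 0 ∉ KK O}.encard = O.encard := by
    rw [← encard_union_eq]
    · congr 1
      ext n
      simp only [A0, mem_union, mem_setOf_eq]
      tauto
    · rw [Set.disjoint_left]
      rintro n ⟨-, hn⟩ ⟨-, hn'⟩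
      exact hn' hn
  calc A.encard ≤ ((fun n => ((n, 0) : ℕ × ℂ)) '' A0).encard + A1.encard :=
        (encard_le_encard h1).trans (encard_union_le _ _)
    _ ≤ A0.encard + (1 + {n | n ∈ O ∧ Tr n 0 ∉ KK O}.encard) := add_le_add (encard_image_le _ _) h2
    _ = O.encard + 1 := by rw [← h3]; ring

end Pool.Agent.W5h35.GB
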