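import Pool.Agent.W5h35.GB.Tri
import Pool.Agent.W5h35.GA.Cnt

/-!
# Independence of the logarithmic derivatives, counting
-/

set_option autoImplicit false

open Filter Topology Set

namespace Pool.Agent.W5h35.GB

open Pool.Agent.W5h35.GA
open Pool.Agent.R352.E (cc zt)

lemma indep_of_span {ι κ : Type*} [Fintype ι] [Fintype κ] {x : ι → ℂ} (hx : AlgebraicIndependent Phi x) {y : κ → ℂ}
    (h : ∀ i, x i ∈ cl (range y)) (hc : Fintype.card κ ≤ Fintype.card ι) : AlgebraicIndependent Phi y := by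
  have h1 := card_le hx h
  have h2 : (range y).encard ≤ Fintype.card κ := by
    rw [← image_univ, ← ENat.card_eq_coe_fintype_card, ← encard_univ]
    exact encard_image_le _ _
  have h3 : (Fintype.card κ : ℕ∞) ≤ (range y).encard :=
    (by exact_mod_cast hc : (Fintype.card κ : ℕ∞) ≤ Fintype.card ι).trans (h1.trans (Matroid.eRk_le_encard _ _))
  have hfin : (range y).Finite := finite_range y
  have h4 : Mc.Indep (range y) := by
    refine (Mc.isRkFinite_of_finite hfin).indep_of_encard_le_eRk ?_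
    exact h2.trans ((by exact_mod_cast hc : (Fintype.card κ : ℕ∞) ≤ Fintype.card ι).trans h1)
  have hinj : Function.Injective y := by
    rw [← injOn_univ]
    refine Finite.injOn_of_encard_image_eq finite_univ ?_
    rw [image_univ]
    refine le_antisymm (h2.trans ?_) ?_
    · rw [encard_univ, ENat.card_eq_coe_fintype_card]
    · rw [encard_univ, ENat.card_eq_coe_fintype_card]; exact h3
  exact (algebraicIndependent_subtype_range hinj).1 h4

/-- rank in a contraction -/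
theorem core {ι : Type*} {x : ι → ℂ} (hx : AlgebraicIndependent Phi x) (B : Set ι) (W : Finset ι) (hWB : ∀ i ∈ W, i ∉ B)
    (P : Set ℂ) (h : ∀ i ∈ W, x i ∈ cl (x '' B ∪ P)) : (W.card : ℕ∞) ≤ P.encard := by
  classical
  have hfin : ∀ i : W, ∃ F : Finset ι, (∀ j ∈ F, j ∈ B) ∧ x i ∈ cl (x '' (F : Set ι) ∪ P) := by
    intro i
    obtain ⟨A, hA, hAf, -, hk⟩ := Mc.exists_mem_finite_closure_of_mem_closure (h i.1 i.2)
    obtain ⟨F, hF, hFf, hFA⟩ := (exists_subset_image_finite_and (p := fun A' => A ∩ x '' B = A')).1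
      ⟨A ∩ x '' B, inter_subset_right, hAf.inter_of_left _, rfl⟩
    refine ⟨hFf.toFinset, fun j hj => hF (hFf.mem_toFinset.1 hj), ?_⟩
    refine cl_mono ?_ (show x i.1 ∈ cl A from hk)
    intro z hz
    rcases hA hz with hz1 | hz1
    · left
      rw [hFf.coe_toFinset, ← hFA]
      exact ⟨hz, hz1⟩
    · exact Or.inr hz1
  choose F hF1 hF2 using hfin
  let B0 : Finset ι := Finset.univ.biUnion F
  have hB0 : ∀ j ∈ B0, j ∈ B := by
    intro j hj
    obtain ⟨i, _, hi⟩ := Finset.mem_biUnion.1 hj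
    exact hF1 i j hi
  have hdis : Disjoint B0 W := by
    rw [Finset.disjoint_left]
    intro j hj hjW
    exact hWB j hjW (hB0 j hj)
  have hV : AlgebraicIndependent Phi (fun i : (B0 ∪ W : Finset ι) => x i) := hx.comp _ Subtype.val_injective
  have h1 := card_le hV (T := x '' (B0 : Set ι) ∪ P) (fun i => by
    rcases Finset.mem_union.1 i.2 with hi | hi
    · exact subset_cl _ (Or.inl ⟨i.1, hi, rfl⟩)
    · refine cl_mono ?_ (hF2 ⟨i.1, hi⟩)
      refine union_subset_union_left _ (image_mono ?_)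
      intro j hj
      exact Finset.mem_coe.2 (Finset.mem_biUnion.2 ⟨_, Finset.mem_univ _, Finset.mem_coe.1 hj⟩))
  have h2 : (x '' (B0 : Set ι) ∪ P).encard ≤ (B0.card : ℕ∞) + P.encard := by
    refine (encard_union_le _ _).trans ?_
    rw [← encard_coe_eq_coe_finsetCard]
    exact add_le_add (encard_image_le _ _) le_rfl
  have h3 : ((B0.card : ℕ∞) + (W.card : ℕ∞)) ≤ (B0.card : ℕ∞) + P.encard := by
    have h4 := h1.trans ((Matroid.eRk_le_encard _ _).trans h2)
    rw [Fintype.card_coe, Finset.card_union_of_disjoint hdis] at h4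
    exact_mod_cast h4
  exact (ENat.add_le_add_iff_left (ENat.natCast_ne_top _)).1 h3

/-- the `E`-values from the logarithmic derivatives -/
lemma aQ_mem {T : Set ℂ} {α : ℂ} {N : ℕ} (h : ∀ n, 1 ≤ n → n ≤ N → qf n α ∈ cl T) : ∀ n ≤ N, aQ α n ∈ cl T := by
  intro n
  induction n using Nat.strong_induction_on with
  | _ n ih =>
    intro hn
    cases n with
    | zero =>
      rw [aQ, if_pos rfl]
      exact (cl T).one_mem
    | succ n =>
      have h1 := qf_rec α n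
      have h2 : aQ α (n + 1) = (∑ p ∈ Finset.HasAntidiagonal.antidiagonal n, aQ α p.1 * (qf (p.2 + 1) α / p.2.factorial)) /
          ((n : ℂ) + 1) := by
        rw [eq_div_iff (by exact_mod_cast n.succ_ne_zero), mul_comm, h1]
      rw [h2]
      refine (cl T).div_mem ((cl T).sum_mem fun p hp => ?_) ?_
      · have hp' := Finset.HasAntidiagonal.mem_antidiagonal.1 hp
        exact (cl T).mul_mem (ih p.1 (by omega) (by omega)) ((cl T).div_mem (h _ (by omega) (by omega)) (natCast_mem (cl T) _))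
      · exact_mod_cast natCast_mem (cl T) (n + 1)

lemma Ec_mem_q {T : Set ℂ} {α : ℂ} {n : ℕ} (hn : 1 ≤ n) (h : ∀ m, 1 ≤ m → m ≤ n → qf m α ∈ cl T) : Ec n α ∈ cl T := by
  have h1 := aQ_mem h n le_rfl
  rw [aQ, if_neg (by omega)] at h1
  have h2 : Ec n α = (-1) ^ n * ((-1) ^ n * Ec n α) := by
    rw [← mul_assoc, ← pow_add, ← two_mul, pow_mul]
    simp
  rw [h2]
  exact (cl T).mul_mem ((cl T).pow_mem ((cl T).neg_mem (cl T).one_mem) _) h1

/-- the index set -/
def VV : Set (ℕ × ℂ) := {p | 1 ≤ p.1 ∧ IsAlgebraic ℚ p.2 ∧ p.2 ≠ 0}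

lemma Ec_indep (F : Finset (ℕ × ℂ)) (hF : ∀ p ∈ F, p ∈ VV) : AlgebraicIndependent Phi (fun p : F => Ec p.1.1 p.1.2) := by
  let f : F → Ix := fun p => ⟨(p.1.1 - 1, p.1.2), (hF p p.2).2.1, (hF p p.2).2.2⟩
  have hf : Function.Injective f := by
    rintro ⟨⟨l, α⟩, hp⟩ ⟨⟨l', α'⟩, hp'⟩ h
    simp only [f, Subtype.mk.injEq, Prod.mk.injEq] at h
    have h1 := (hF _ hp).1
    have h2 := (hF _ hp').1
    simp only at h1 h2
    have : l = l' := by omega
    simp [this, h.2]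
  have h := Ec_alg_Phi.comp f hf
  convert h using 1
  ext p
  have := (hF p p.2).1
  simp only [f, Function.comp]
  rw [Nat.sub_add_cancel this]

/-- **independence of the logarithmic derivatives** -/
theorem qf_indep : AlgebraicIndependent Phi (fun p : VV => qf p.1.1 p.1.2) := by
  classical
  refine algebraicIndependent_of_finite_type fun t ht => ?_
  let F : Finset (ℕ × ℂ) := ht.toFinset.biUnion fun p => (Finset.Icc 1 p.1.1).image fun m => (m, p.1.2)
  have hF : ∀ p ∈ F, p ∈ VV := by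
    intro p hp
    obtain ⟨q, hq, hp⟩ := Finset.mem_biUnion.1 hp
    obtain ⟨m, hm, rfl⟩ := Finset.mem_image.1 hp
    exact ⟨(Finset.mem_Icc.1 hm).1, q.2.2.1, q.2.2.2⟩
  have hdc : ∀ p ∈ F, ∀ m, 1 ≤ m → m ≤ p.1 → ((m, p.2) : ℕ × ℂ) ∈ F := by
    intro p hp m hm hm'
    obtain ⟨q, hq, hp⟩ := Finset.mem_biUnion.1 hp
    obtain ⟨m', hm2, rfl⟩ := Finset.mem_image.1 hp
    refine Finset.mem_biUnion.2 ⟨q, hq, Finset.mem_image.2 ⟨m, Finset.mem_Icc.2 ⟨hm, ?_⟩, rfl⟩⟩
    exact hm'.trans (Finset.mem_Icc.1 hm2).2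
  have htF : ∀ p ∈ t, p.1 ∈ F := by
    intro p hp
    refine Finset.mem_biUnion.2 ⟨p, ht.mem_toFinset.2 hp, Finset.mem_image.2 ⟨p.1.1, Finset.mem_Icc.2 ⟨p.2.1, le_rfl⟩, rfl⟩⟩
  have h1 : AlgebraicIndependent Phi (fun p : F => qf p.1.1 p.1.2) := by
    refine indep_of_span (Ec_indep F hF) (fun p => ?_) le_rfl
    refine Ec_mem_q (hF p.1 p.2).1 fun m hm hm' => ?_
    exact subset_cl _ ⟨⟨(m, p.1.2), hdc p.1 p.2 m hm hm'⟩, rfl⟩
  let f : t → F := fun p => ⟨p.1.1, htF p.1 p.2⟩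
  have hf : Function.Injective f := by
    intro p q h
    have : p.1.1 = q.1.1 := congrArg (fun z : F => z.1) h
    exact Subtype.ext (Subtype.ext this)
  exact h1.comp f hf

/-- the independent numbers as a function of the pairs -/
noncomputable def qv (p : ℕ × ℂ) : ℂ := qf p.1 p.2

theorem core_q (B : Set (ℕ × ℂ)) (hB : B ⊆ VV) (W : Finset (ℕ × ℂ)) (hW : ∀ p ∈ W, p ∈ VV ∧ p ∉ B)
    (P : Set ℂ) (h : ∀ p ∈ W, qv p ∈ cl (qv '' B ∪ P)) : (W.card : ℕ∞) ≤ P.encard := by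
  classical
  have h1 := core qf_indep (Subtype.val ⁻¹' B) (W.attach.image fun p => (⟨p.1, (hW p.1 p.2).1⟩ : VV)) ?_ P ?_
  · rw [Finset.card_image_of_injective, Finset.card_attach] at h1
    · exact h1
    · intro p q hpq
      have : p.1 = q.1 := congrArg (fun z : VV => z.1) hpq
      exact Subtype.ext this
  · intro p hp hpB
    obtain ⟨q, -, rfl⟩ := Finset.mem_image.1 hp
    exact (hW q.1 q.2).2 hpB
  · intro p hp
    obtain ⟨q, -, rfl⟩ := Finset.mem_image.1 hp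
    have h2 : (fun p : VV => qf p.1.1 p.1.2) '' (Subtype.val ⁻¹' B) = qv '' B := by
      ext z
      constructor
      · rintro ⟨p, hp, rfl⟩
        exact ⟨p.1, hp, rfl⟩
      · rintro ⟨p, hp, rfl⟩
        exact ⟨⟨p, hB hp⟩, hp, rfl⟩
    rw [h2]
    exact h q.1 q.2

/-! ## the ratios -/

/-- the normalising factor -/
noncomputable def nf (n : ℕ) : ℂ := -(((n - 1).factorial : ℂ) ^ 2 / ((2 * n - 1).factorial : ℂ))

lemma nf_ne (n : ℕ) : nf n ≠ 0 := by
  unfold nf
  have h1 : ((n - 1).factorial : ℂ) ≠ 0 := by exact_mod_cast (n - 1).factorial_ne_zero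
  have h2 : ((2 * n - 1).factorial : ℂ) ≠ 0 := by exact_mod_cast (2 * n - 1).factorial_ne_zero
  exact neg_ne_zero.2 (div_ne_zero (pow_ne_zero _ h1) h2)

lemma nf_mem (n : ℕ) (T : Set ℂ) : nf n ∈ cl T :=
  (cl T).neg_mem ((cl T).div_mem ((cl T).pow_mem (natCast_mem _ _) _) (natCast_mem _ _))

/-- the ratios -/
noncomputable def Tr (n : ℕ) (α : ℂ) : ℂ := nf n * (lam (2 * n) α / lam n α ^ 2)

lemma lam_zero_zeta' {n : ℕ} (hn : 2 ≤ n) : lam n 0 = (-1) ^ (n - 1) * (n - 1).factorial * ((zt n : ℝ) : ℂ) := by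
  obtain ⟨m, rfl⟩ : ∃ m, n = m + 2 := ⟨n - 2, by omega⟩
  rw [lam_zero_zeta]
  rfl

lemma zt_ne {n : ℕ} (hn : 2 ≤ n) : ((zt n : ℝ) : ℂ) ≠ 0 := by
  have := zt_pos n hn
  exact_mod_cast this.ne'

lemma lam_zero_ne {n : ℕ} (hn : 2 ≤ n) : lam n 0 ≠ 0 := by
  rw [lam_zero_zeta' hn]
  refine mul_ne_zero (mul_ne_zero (pow_ne_zero _ (by norm_num)) ?_) (zt_ne hn)
  exact_mod_cast (n - 1).factorial_ne_zero

lemma Tr_zero {n : ℕ} (hn : 2 ≤ n) : Tr n 0 = ((zt (2 * n) : ℝ) : ℂ) / ((zt n : ℝ) : ℂ) ^ 2 := by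
  rw [Tr, lam_zero_zeta' hn, lam_zero_zeta' (show 2 ≤ 2 * n by omega), nf]
  have h1 : ((n - 1).factorial : ℂ) ≠ 0 := by exact_mod_cast (n - 1).factorial_ne_zero
  have h2 : ((2 * n - 1).factorial : ℂ) ≠ 0 := by exact_mod_cast (2 * n - 1).factorial_ne_zero
  have h3 := zt_ne hn
  have h4 : ((-1 : ℂ)) ^ (2 * n - 1) = -1 := by
    have : 2 * n - 1 = 2 * (n - 1) + 1 := by omega
    rw [this, pow_succ, pow_mul]
    simp
  have h5 : ((-1 : ℂ) ^ (n - 1)) ^ 2 = 1 := by
    rw [← pow_mul, mul_comm, pow_mul]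
    simp
  rw [mul_pow, mul_pow, h4, h5]
  field_simp

/-- the orders `n`, `2n` for `n` in `O` -/
def dbl (O : Set ℕ) : Set ℕ := {m | m ∈ O ∨ ∃ n ∈ O, m = 2 * n}

/-- the base set -/
def BB (O : Set ℕ) : Set (ℕ × ℂ) := {p | p ∈ VV ∧ p.1 ∉ dbl O}

/-- the field -/
noncomputable def KK (O : Set ℕ) : Subfield ℂ := cl (qv '' BB O)

open Classical in
/-- the second coordinate -/
noncomputable def zz (p : ℕ × ℂ) : ℂ := if lam p.1 p.2 ≠ 0 then Tr p.1 p.2 else lam (2 * p.1) p.2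

/-- the counting theorem -/
theorem count_ratio (O : Set ℕ) (hO : ∀ n ∈ O, Odd n ∧ 3 ≤ n) (D : Finset ℕ)
    (hD : ∀ n ∈ O, n ∉ D → Tr n 0 ∈ KK O) (S : Finset (Option ((ℕ × ℂ) ⊕ (ℕ × ℂ))))
    (h0 : none ∈ S → (Real.pi : ℂ) ∈ KK O)
    (h1 : ∀ p, some (Sum.inl p) ∈ S → p.1 ∈ O ∧ IsAlgebraic ℚ p.2 ∧ p.2 ≠ 0 ∧ lam p.1 p.2 ≠ 0 ∧ Tr p.1 p.2 ∈ KK O)
    (h2 : ∀ p, some (Sum.inr p) ∈ S → p.1 ∈ O ∧ IsAlgebraic ℚ p.2 ∧ p.2 ≠ 0 ∧ lam p.1 p.2 ∈ KK O) :
    S.card ≤ 1 + D.card := by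
  classical
  let S' := Finset.eraseNone S
  have hS' : ∀ i, i ∈ S' ↔ some i ∈ S := fun i => Finset.mem_eraseNone
  let Sl : Finset (ℕ × ℂ) := S'.toLeft
  let Sr : Finset (ℕ × ℂ) := S'.toRight
  have hSl : ∀ p, p ∈ Sl ↔ some (Sum.inl p) ∈ S := fun p => by rw [Finset.mem_toLeft, hS']
  have hSr : ∀ p, p ∈ Sr ↔ some (Sum.inr p) ∈ S := fun p => by rw [Finset.mem_toRight, hS']
  let R : Finset (ℕ × ℂ) := Sl ∪ Sr
  have hR : ∀ p ∈ R, p.1 ∈ O ∧ IsAlgebraic ℚ p.2 ∧ p.2 ≠ 0 := by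
    intro p hp
    rcases Finset.mem_union.1 hp with h | h
    · have := h1 p ((hSl p).1 h)
      exact ⟨this.1, this.2.1, this.2.2.1⟩
    · have := h2 p ((hSr p).1 h)
      exact ⟨this.1, this.2.1, this.2.2.1⟩
  let db : ℕ × ℂ → ℕ × ℂ := fun p => (2 * p.1, p.2)
  have hdb : Function.Injective db := by
    rintro ⟨a, x⟩ ⟨b, y⟩ h
    simp only [db, Prod.mk.injEq] at h
    ext
    · exact_mod_cast (by omega : a = b)
    all_goals simp [h.2]
  let W : Finset (ℕ × ℂ) := R ∪ R.image db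
  have hdis : Disjoint R (R.image db) := by
    rw [Finset.disjoint_left]
    intro p hp hp'
    obtain ⟨q, hq, hqp⟩ := Finset.mem_image.1 hp'
    have a1 := (hO _ (hR p hp).1).1
    have a2 : p.1 = 2 * q.1 := by rw [← hqp]
    obtain ⟨k, hk⟩ := a1
    omega
  have hWcard : W.card = R.card + R.card := by
    rw [Finset.card_union_of_disjoint hdis, Finset.card_image_of_injective _ hdb]
  let C : Finset ℂ := if none ∈ S then ∅ else {(Real.pi : ℂ)}
  let Pl : Finset ℂ := (R \ Sl).image zz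
  let Pr' : Finset ℂ := (R \ Sr).image (fun p => lam p.1 p.2)
  let Pz : Finset ℂ := D.image (fun n => ((zt n : ℝ) : ℂ))
  let P : Finset ℂ := (C ∪ Pz) ∪ (Pl ∪ Pr')
  let T : Set ℂ := qv '' BB O ∪ (P : Set ℂ)
  have hKT : KK O ≤ cl T := cl_mono subset_union_left
  have hPT : ∀ z ∈ P, z ∈ cl T := fun z hz => subset_cl _ (Or.inr (Finset.mem_coe.2 hz))
  have hpi : (Real.pi : ℂ) ∈ cl T := by
    by_cases h : none ∈ S
    · exact hKT (h0 h)
    · refine hPT _ (Finset.mem_union_left _ (Finset.mem_union_left _ ?_))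
      simp only [C, if_neg h, Finset.mem_singleton]
  have hz2 : ∀ n ∈ O, ((zt (2 * n) : ℝ) : ℂ) ∈ cl T := by
    intro n hn
    exact zt_even' hpi n (by have := (hO n hn).2; omega)
  have hz : ∀ n ∈ O, ((zt n : ℝ) : ℂ) ∈ cl T := by
    intro n hn
    by_cases hnD : n ∈ D
    · exact hPT _ (Finset.mem_union_left _ (Finset.mem_union_right _ (Finset.mem_image_of_mem _ hnD)))
    · have h3 := hKT (hD n hn hnD)
      have hn2 : 2 ≤ n := by have := (hO n hn).2; omega
      rw [Tr_zero hn2] at h3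
      refine of_pow (n := 2) two_ne_zero ?_
      have h4 : ((zt n : ℝ) : ℂ) ^ 2 = ((zt (2 * n) : ℝ) : ℂ) / (((zt (2 * n) : ℝ) : ℂ) / ((zt n : ℝ) : ℂ) ^ 2) := by
        have := zt_ne (show 2 ≤ 2 * n by omega)
        have := zt_ne hn2
        field_simp
      rw [h4]
      exact (cl T).div_mem (hz2 n hn) h3
  have hl0 : ∀ n ∈ O, lam n 0 ∈ cl T ∧ lam (2 * n) 0 ∈ cl T := by
    intro n hn
    have hn2 : 2 ≤ n := by have := (hO n hn).2; omega
    rw [lam_zero_zeta' hn2, lam_zero_zeta' (show 2 ≤ 2 * n by omega)]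
    refine ⟨(cl T).mul_mem ((cl T).mul_mem ?_ (natCast_mem _ _)) (hz n hn),
      (cl T).mul_mem ((cl T).mul_mem ?_ (natCast_mem _ _)) (hz2 n hn)⟩ <;>
    exact (cl T).pow_mem ((cl T).neg_mem (cl T).one_mem) _
  have hlam : ∀ p ∈ R, lam p.1 p.2 ∈ cl T := by
    intro p hp
    by_cases h : p ∈ Sr
    · exact hKT (h2 p ((hSr p).1 h)).2.2.2
    · refine hPT _ (Finset.mem_union_right _ (Finset.mem_union_right _ (Finset.mem_image_of_mem _ (Finset.mem_sdiff.2 ⟨hp, h⟩))))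
  have hzz : ∀ p ∈ R, zz p ∈ cl T := by
    intro p hp
    by_cases h : p ∈ Sl
    · have h3 := h1 p ((hSl p).1 h)
      rw [zz, if_pos h3.2.2.2.1]
      exact hKT h3.2.2.2.2
    · exact hPT _ (Finset.mem_union_right _ (Finset.mem_union_left _ (Finset.mem_image_of_mem _ (Finset.mem_sdiff.2 ⟨hp, h⟩))))
  have hlam2 : ∀ p ∈ R, lam (2 * p.1) p.2 ∈ cl T := by
    intro p hp
    have h3 := hzz p hp
    by_cases h : lam p.1 p.2 ≠ 0
    · rw [zz, if_pos h, Tr] at h3
      have h4 : lam (2 * p.1) p.2 = nf p.1 * (lam (2 * p.1) p.2 / lam p.1 p.2 ^ 2) / nf p.1 * lam p.1 p.2 ^ 2 := by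
        have := nf_ne p.1
        field_simp
      rw [h4]
      exact (cl T).mul_mem ((cl T).div_mem h3 (nf_mem _ _)) ((cl T).pow_mem (hlam p hp) _)
    · rw [zz, if_neg h] at h3
      exact h3
  have hkey := core_q (BB O) (fun p hp => hp.1) W ?_ (P : Set ℂ) ?_
  · have h3 : P.card ≤ (C.card + D.card) + ((R \ Sl).card + (R \ Sr).card) := by
      refine (Finset.card_union_le _ _).trans (add_le_add ((Finset.card_union_le _ _).trans
        (add_le_add le_rfl Finset.card_image_le)) ((Finset.card_union_le _ _).trans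
          (add_le_add Finset.card_image_le Finset.card_image_le)))
    have h4 : W.card ≤ P.card := by
      rw [encard_coe_eq_coe_finsetCard] at hkey
      exact_mod_cast hkey
    have h5 : (R \ Sl).card + Sl.card = R.card := Finset.card_sdiff_add_card_eq_card Finset.subset_union_left
    have h6 : (R \ Sr).card + Sr.card = R.card := Finset.card_sdiff_add_card_eq_card Finset.subset_union_right
    have h7 : S'.card = Sl.card + Sr.card := (Finset.card_toLeft_add_card_toRight (u := S')).symm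
    have h8 : C.card + S.card = 1 + S'.card := by
      by_cases h : none ∈ S
      · have h9 : S'.card = (S.erase none).card := by
          rw [← Finset.map_some_eraseNone, Finset.card_map]
        rw [Finset.card_erase_of_mem h] at h9
        have h10 : 1 ≤ S.card := Finset.card_pos.2 ⟨_, h⟩
        simp only [C, if_pos h, Finset.card_empty]
        omega
      · have h9 : S'.card = (S.erase none).card := by
          rw [← Finset.map_some_eraseNone, Finset.card_map]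
        rw [Finset.erase_eq_of_notMem h] at h9
        simp only [C, if_neg h, Finset.card_singleton]
        omega
    omega
  · intro p hp
    rcases Finset.mem_union.1 hp with h | h
    · obtain ⟨a1, a2, a3⟩ := hR p h
      refine ⟨⟨by have := (hO _ a1).2; omega, a2, a3⟩, fun h3 => h3.2 (Or.inl a1)⟩
    · obtain ⟨q, hq, rfl⟩ := Finset.mem_image.1 h
      obtain ⟨a1, a2, a3⟩ := hR q hq
      refine ⟨⟨by have := (hO _ a1).2; simp only [db]; omega, a2, a3⟩, fun h3 => h3.2 (Or.inr ⟨q.1, a1, rfl⟩)⟩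
  · intro p hp
    rcases Finset.mem_union.1 hp with h | h
    · obtain ⟨a1, a2, a3⟩ := hR p h
      obtain ⟨n, hn⟩ : ∃ n, p.1 = n + 1 := ⟨p.1 - 1, by have := (hO _ a1).2; omega⟩
      have h3 : qv p = lam p.1 p.2 - lam p.1 0 := by rw [qv, hn, lam_sub]
      rw [h3]
      exact (cl T).sub_mem (hlam p h) (hl0 _ a1).1
    · obtain ⟨q, hq, rfl⟩ := Finset.mem_image.1 h
      obtain ⟨a1, a2, a3⟩ := hR q hq
      obtain ⟨n, hn⟩ : ∃ n, 2 * q.1 = n + 1 := ⟨2 * q.1 - 1, by have := (hO _ a1).2; omega⟩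
      have h3 : qv (db q) = lam (2 * q.1) q.2 - lam (2 * q.1) 0 := by
        simp only [qv, db]
        rw [hn, lam_sub]
      rw [h3]
      exact (cl T).sub_mem (hlam2 q hq) (hl0 _ a1).2

end Pool.Agent.W5h35.GB
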