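import Mathlib

/-!
# Taylor series at zero as formal power series
-/

set_option autoImplicit false

open Filter Topology

namespace Pool.Agent.W5h35.GB

/-- the Taylor series at zero -/
noncomputable def PS (f : ℂ → ℂ) : PowerSeries ℂ := PowerSeries.mk fun n => iteratedDeriv n f 0 / n.factorial

lemma PS_mul {f g : ℂ → ℂ} (hf : AnalyticAt ℂ f 0) (hg : AnalyticAt ℂ g 0) : PS (f * g) = PS f * PS g := by
  ext n
  rw [PowerSeries.coeff_mul]
  simp only [PS, PowerSeries.coeff_mk]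
  rw [iteratedDeriv_mul hf.contDiffAt hg.contDiffAt,
    Finset.Nat.sum_antidiagonal_eq_sum_range_succ (fun i j => iteratedDeriv i f 0 / (i.factorial : ℂ) *
      (iteratedDeriv j g 0 / (j.factorial : ℂ))), Finset.sum_div]
  refine Finset.sum_congr rfl fun i hi => ?_
  have hi' : i ≤ n := by have := Finset.mem_range.1 hi; omega
  have h3 : (n.choose i : ℂ) * i.factorial * (n - i).factorial = n.factorial := by
    exact_mod_cast Nat.choose_mul_factorial_mul_factorial hi'
  have h4 : (n.factorial : ℂ) ≠ 0 := by exact_mod_cast n.factorial_ne_zero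
  have h5 : (i.factorial : ℂ) ≠ 0 := by exact_mod_cast i.factorial_ne_zero
  have h6 : ((n - i).factorial : ℂ) ≠ 0 := by exact_mod_cast (n - i).factorial_ne_zero
  field_simp
  linear_combination (iteratedDeriv i f 0 * iteratedDeriv (n - i) g 0) * h3

lemma PS_deriv (f : ℂ → ℂ) : PS (deriv f) = PowerSeries.derivative ℂ (PS f) := by
  ext n
  rw [PowerSeries.coeff_derivative]
  simp only [PS, PowerSeries.coeff_mk]
  rw [← iteratedDeriv_succ', Nat.factorial_succ]
  have h4 : (n.factorial : ℂ) ≠ 0 := by exact_mod_cast n.factorial_ne_zero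
  have h7 : ((n : ℂ) + 1) ≠ 0 := by exact_mod_cast n.succ_ne_zero
  push_cast
  field_simp

lemma PS_congr {f g : ℂ → ℂ} (h : f =ᶠ[𝓝 0] g) : PS f = PS g := by
  ext n
  simp only [PS, PowerSeries.coeff_mk]
  rw [h.iteratedDeriv_eq]

lemma PS_logDeriv {f : ℂ → ℂ} (hf : AnalyticAt ℂ f 0) (h0 : f 0 ≠ 0) :
    AnalyticAt ℂ (logDeriv f) 0 ∧ PS f * PS (logDeriv f) = PowerSeries.derivative ℂ (PS f) := by
  have h1 : AnalyticAt ℂ (logDeriv f) 0 := hf.deriv.div hf h0
  refine ⟨h1, ?_⟩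
  rw [← PS_mul hf h1, ← PS_deriv]
  refine PS_congr ?_
  have h2 : ∀ᶠ s in 𝓝 (0 : ℂ), f s ≠ 0 := hf.continuousAt.eventually_ne h0
  filter_upwards [h2] with s hs
  simp only [Pi.mul_apply, logDeriv_apply]
  field_simp

lemma PS_of_hasSum {f : ℂ → ℂ} {a : ℕ → ℂ} {r : ℝ} (hr : 0 < r)
    (h : ∀ s : ℂ, ‖s‖ < r → HasSum (fun n => a n * s ^ n) (f s)) : AnalyticAt ℂ f 0 ∧ PS f = PowerSeries.mk a := by
  have h1 : HasFPowerSeriesAt f (FormalMultilinearSeries.ofScalars ℂ a) 0 := by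
    rw [hasFPowerSeriesAt_iff]
    have h2 : ∀ᶠ z : ℂ in 𝓝 0, z ∈ Metric.ball (0 : ℂ) r := Metric.ball_mem_nhds 0 hr
    filter_upwards [h2] with z hz
    rw [mem_ball_zero_iff] at hz
    have h3 := h z hz
    rw [zero_add]
    refine h3.congr_fun fun n => ?_
    rw [FormalMultilinearSeries.coeff_ofScalars, smul_eq_mul, mul_comm]
  have h2 : AnalyticAt ℂ f 0 := ⟨_, h1⟩
  refine ⟨h2, ?_⟩
  have h3 := h2.hasFPowerSeriesAt.eq_formalMultilinearSeries h1
  ext n
  have h4 := congrArg (fun p => FormalMultilinearSeries.coeff p n) h3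
  simp only [FormalMultilinearSeries.coeff_ofScalars] at h4
  simp only [PS, PowerSeries.coeff_mk]
  exact h4

lemma iteratedDeriv_log {f : ℂ → ℂ} (hf : AnalyticAt ℂ f 0) (h0 : f 0 ∈ Complex.slitPlane) (n : ℕ) :
    iteratedDeriv (n + 1) (fun s => Complex.log (f s)) 0 = n.factorial * PowerSeries.coeff n (PS (logDeriv f)) := by
  have h1 : deriv (fun s => Complex.log (f s)) =ᶠ[𝓝 0] logDeriv f := by
    have h2 : ∀ᶠ s in 𝓝 (0 : ℂ), f s ∈ Complex.slitPlane :=
      hf.continuousAt.eventually (Complex.isOpen_slitPlane.mem_nhds h0)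
    filter_upwards [h2, hf.eventually_analyticAt] with s hs hs'
    rw [logDeriv_apply]
    exact (hs'.differentiableAt.hasDerivAt.clog hs).deriv
  have h4 : (n.factorial : ℂ) ≠ 0 := by exact_mod_cast n.factorial_ne_zero
  rw [iteratedDeriv_succ', h1.iteratedDeriv_eq, PS, PowerSeries.coeff_mk]
  field_simp

lemma PS_logDeriv_div {f g : ℂ → ℂ} (hf : AnalyticAt ℂ f 0) (hg : AnalyticAt ℂ g 0) (hf0 : f 0 ≠ 0) (hg0 : g 0 ≠ 0) :
    PS (logDeriv (fun s => f s / g s)) = PS (logDeriv f) - PS (logDeriv g) := by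
  have h1 : logDeriv (fun s => f s / g s) =ᶠ[𝓝 0] fun s => logDeriv f s - logDeriv g s := by
    filter_upwards [hf.eventually_analyticAt, hg.eventually_analyticAt, hf.continuousAt.eventually_ne hf0,
      hg.continuousAt.eventually_ne hg0] with s h1 h2 h3 h4
    exact logDeriv_div s h3 h4 h1.differentiableAt h2.differentiableAt
  rw [PS_congr h1]
  ext n
  simp only [PS, PowerSeries.coeff_mk, map_sub]
  have ha : AnalyticAt ℂ (logDeriv f) 0 := (PS_logDeriv hf hf0).1
  have hb : AnalyticAt ℂ (logDeriv g) 0 := (PS_logDeriv hg hg0).1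
  have h2 := iteratedDeriv_fun_sub (n := n) (f := logDeriv f) (g := logDeriv g) (x := (0 : ℂ)) ha.contDiffAt hb.contDiffAt
  rw [h2, sub_div]

end Pool.Agent.W5h35.GB
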