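import Pool.Agent.W5h35.GB.Tay
import Pool.Agent.W5h35.GA.Mem

/-!
# Tricomi's incomplete gamma function and its logarithmic derivatives at `s = 0`
-/

set_option autoImplicit false

open Filter Topology

namespace Pool.Agent.W5h35.GB

open Pool.Agent.W5h35.GA (Ec Ec_eq)
open Pool.Agent.R352.E (cc zt pd psi pd_deriv pd_one Gamma_deriv)

/-- `Q(s, α) = 1 + ∑ s (-α)^k / (k! (s + k))` -/
noncomputable def Q (s α : ℂ) : ℂ := 1 + ∑' k : ℕ, s * (-α) ^ (k + 1) / ((k + 1).factorial * (s + (k + 1)))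

noncomputable def aQ (α : ℂ) (l : ℕ) : ℂ := if l = 0 then 1 else (-1) ^ l * Ec l α

lemma Q_hasSum (α s : ℂ) (hs : ‖s‖ < 1) : HasSum (fun l => aQ α l * s ^ l) (Q s α) := by
  let g : ℕ → ℕ → ℂ := fun l m => (-1) ^ l * s ^ (l + 1) * ((-α) ^ (m + 1) / ((m + 1).factorial * ((m : ℂ) + 1) ^ (l + 1)))
  have hbound : ∀ p : ℕ × ℕ, ‖g p.1 p.2‖ ≤ ‖s‖ ^ (p.1 + 1) * (‖α‖ ^ (p.2 + 1) / (p.2 + 1).factorial) := by
    rintro ⟨l, m⟩
    simp only [g]
    rw [norm_mul, norm_mul, norm_pow, norm_neg, norm_one, one_pow, one_mul, norm_pow, norm_div, norm_pow, norm_neg,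
      norm_mul, norm_pow, Complex.norm_natCast]
    have h1 : (1 : ℝ) ≤ ‖(m : ℂ) + 1‖ ^ (l + 1) := by
      refine one_le_pow₀ ?_
      have : (m : ℂ) + 1 = (((m : ℝ) + 1 : ℝ) : ℂ) := by push_cast; rfl
      rw [this, Complex.norm_real, Real.norm_eq_abs, abs_of_nonneg (by positivity)]
      linarith [show (0 : ℝ) ≤ m by positivity]
    have h2 : (0 : ℝ) < (m + 1).factorial := by positivity
    refine mul_le_mul_of_nonneg_left ?_ (by positivity)
    exact div_le_div_of_nonneg_left (by positivity) h2 (le_mul_of_one_le_right h2.le h1)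
  have hsum : Summable (fun p : ℕ × ℕ => g p.1 p.2) := by
    have hA : Summable (fun l : ℕ => ‖s‖ ^ (l + 1)) :=
      (summable_nat_add_iff (f := fun l : ℕ => ‖s‖ ^ l) 1).2 (summable_geometric_of_lt_one (norm_nonneg _) hs)
    have hB : Summable (fun m : ℕ => ‖α‖ ^ (m + 1) / ((m + 1).factorial : ℝ)) :=
      (summable_nat_add_iff (f := fun m : ℕ => ‖α‖ ^ m / (m.factorial : ℝ)) 1).2 (Real.summable_pow_div_factorial ‖α‖)
    have hA0 : 0 ≤ (fun l : ℕ => ‖s‖ ^ (l + 1)) := fun _ => by positivity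
    have hB0 : 0 ≤ (fun m : ℕ => ‖α‖ ^ (m + 1) / ((m + 1).factorial : ℝ)) := fun _ => by positivity
    exact Summable.of_norm_bounded (hA.mul_of_nonneg hB hA0 hB0) hbound
  have h1 : ∀ m : ℕ, ∑' l, g l m = s * (-α) ^ (m + 1) / ((m + 1).factorial * (s + (m + 1))) := by
    intro m
    have hm : ((m : ℂ) + 1) ≠ 0 := by exact_mod_cast m.succ_ne_zero
    have hm1 : (1 : ℝ) ≤ ‖(m : ℂ) + 1‖ := by
      have : (m : ℂ) + 1 = (((m : ℝ) + 1 : ℝ) : ℂ) := by push_cast; rfl
      rw [this, Complex.norm_real, Real.norm_eq_abs, abs_of_nonneg (by positivity)]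
      linarith [show (0 : ℝ) ≤ m by positivity]
    have hlt : ‖-s / ((m : ℂ) + 1)‖ < 1 := by
      rw [norm_div, norm_neg, div_lt_one (by linarith)]
      linarith
    have hgeo := (hasSum_geometric_of_norm_lt_one hlt).mul_left (s * (-α) ^ (m + 1) / ((m + 1).factorial * ((m : ℂ) + 1)))
    have h2 : (fun l => g l m) = fun l : ℕ => s * (-α) ^ (m + 1) / ((m + 1).factorial * ((m : ℂ) + 1)) * (-s / ((m : ℂ) + 1)) ^ l := by
      funext l
      simp only [g]
      have h3 : (((m + 1).factorial : ℕ) : ℂ) ≠ 0 := by exact_mod_cast (m + 1).factorial_ne_zero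
      rw [div_pow, neg_pow s, pow_succ, pow_succ ((m : ℂ) + 1)]
      field_simp
    rw [h2, hgeo.tsum_eq]
    have h3 : (((m + 1).factorial : ℕ) : ℂ) ≠ 0 := by exact_mod_cast (m + 1).factorial_ne_zero
    have h4 : s + ((m : ℂ) + 1) ≠ 0 := by
      intro h0
      have h5 : s = -((m : ℂ) + 1) := by linear_combination h0
      rw [h5, norm_neg] at hs
      linarith
    have h5 : (1 : ℂ) - -s / ((m : ℂ) + 1) = (s + (m + 1)) / (m + 1) := by field_simp; ring
    rw [h5]
    field_simp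
  have h2 : ∀ l : ℕ, ∑' m, g l m = aQ α (l + 1) * s ^ (l + 1) := by
    intro l
    simp only [g]
    rw [tsum_mul_left, aQ, if_neg (Nat.succ_ne_zero l), Ec_eq]
    have h3 : ∑' m : ℕ, -(-α) ^ (m + 1) / ((m + 1).factorial * ((m : ℂ) + 1) ^ (l + 1)) =
        -∑' m : ℕ, (-α) ^ (m + 1) / ((m + 1).factorial * ((m : ℂ) + 1) ^ (l + 1)) := by
      rw [← tsum_neg]
      exact tsum_congr fun m => by ring
    rw [h3, pow_succ (-1 : ℂ)]
    ring
  have h3 : HasSum (fun l => aQ α (l + 1) * s ^ (l + 1)) (∑' m : ℕ, s * (-α) ^ (m + 1) / ((m + 1).factorial * (s + (m + 1)))) := by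
    have h4 : ∑' m : ℕ, s * (-α) ^ (m + 1) / ((m + 1).factorial * (s + (m + 1))) = ∑' l, aQ α (l + 1) * s ^ (l + 1) := by
      rw [← tsum_congr h1, ← tsum_congr h2]
      exact hsum.tsum_comm
    rw [h4]
    have h5 : Summable (fun l => ∑' m, g l m) := hsum.prod
    rw [funext h2] at h5
    exact h5.hasSum
  rw [← hasSum_nat_add_iff' 1]
  have h6 : Q s α - ∑ i ∈ Finset.range 1, aQ α i * s ^ i = ∑' m : ℕ, s * (-α) ^ (m + 1) / ((m + 1).factorial * (s + (m + 1))) := by
    rw [Finset.sum_range_one, Q, aQ, if_pos rfl]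
    ring
  rw [h6]
  exact h3

lemma Q_an (α : ℂ) : AnalyticAt ℂ (fun s => Q s α) 0 ∧ PS (fun s => Q s α) = PowerSeries.mk (aQ α) :=
  PS_of_hasSum one_pos (Q_hasSum α)

lemma Q_zero (α : ℂ) : Q 0 α = 1 := by
  rw [Q]
  simp

lemma Q_arg_zero (s : ℂ) : Q s 0 = 1 := by
  rw [Q]
  simp

/-- Tricomi's incomplete gamma function -/
noncomputable def gst (s α : ℂ) : ℂ := Q s α / Complex.Gamma (s + 1)

lemma Gam_an : AnalyticAt ℂ (fun s => Complex.Gamma (s + 1)) 0 := by
  have h1 : ∀ s ∈ {s : ℂ | -1 < s.re}, DifferentiableAt ℂ (fun s => Complex.Gamma (s + 1)) s := by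
    intro s hs
    have h2 : 0 < (s + 1).re := by
      have : -1 < s.re := hs
      simp only [Complex.add_re, Complex.one_re]
      linarith
    exact ((Gamma_deriv h2).comp_add_const s 1).differentiableAt
  have h3 : IsOpen {s : ℂ | -1 < s.re} := isOpen_lt continuous_const Complex.continuous_re
  have h4 : DifferentiableOn ℂ (fun s => Complex.Gamma (s + 1)) {s : ℂ | -1 < s.re} := fun s hs =>
    (h1 s hs).differentiableWithinAt
  exact h4.analyticAt (h3.mem_nhds (by simp))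

lemma psi_iter (i : ℕ) : ∀ s : ℂ, -1 < s.re → iteratedDeriv i (fun s => psi (s + 1)) s = pd i (s + 1) := by
  induction i with
  | zero =>
    intro s _
    rfl
  | succ i ih =>
    intro s hs
    rw [iteratedDeriv_succ]
    have h3 : IsOpen {s : ℂ | -1 < s.re} := isOpen_lt continuous_const Complex.continuous_re
    have h1 : iteratedDeriv i (fun s => psi (s + 1)) =ᶠ[𝓝 s] fun s => pd i (s + 1) := by
      filter_upwards [h3.mem_nhds hs] with z hz
      exact ih z hz
    rw [h1.deriv_eq]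
    have h2 : 0 < (s + 1).re := by
      simp only [Complex.add_re, Complex.one_re]
      linarith
    exact ((pd_deriv i h2).comp_add_const s 1).deriv

lemma PS_Gam : PS (logDeriv (fun s => Complex.Gamma (s + 1))) = PowerSeries.mk fun n => ((cc n / n.factorial : ℝ) : ℂ) := by
  have h3 : IsOpen {s : ℂ | -1 < s.re} := isOpen_lt continuous_const Complex.continuous_re
  have h1 : logDeriv (fun s => Complex.Gamma (s + 1)) =ᶠ[𝓝 0] fun s => psi (s + 1) := by
    filter_upwards [h3.mem_nhds (show (0 : ℂ) ∈ {s : ℂ | -1 < s.re} by simp)] with s hs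
    have h2 : 0 < (s + 1).re := by
      have : -1 < s.re := hs
      simp only [Complex.add_re, Complex.one_re]
      linarith
    rw [logDeriv_apply, ((Gamma_deriv h2).comp_add_const s 1).deriv]
    have h4 : Complex.Gamma (s + 1) ≠ 0 := Complex.Gamma_ne_zero_of_re_pos h2
    field_simp
  rw [PS_congr h1]
  ext n
  simp only [PS, PowerSeries.coeff_mk]
  rw [psi_iter n 0 (by simp), zero_add, pd_one]
  push_cast
  rfl

/-- the logarithmic derivatives -/
noncomputable def lam (n : ℕ) (α : ℂ) : ℂ := iteratedDeriv n (fun s => Complex.log (gst s α)) 0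

/-- the `E`-function part -/
noncomputable def qf (n : ℕ) (α : ℂ) : ℂ := (n - 1).factorial * PowerSeries.coeff (n - 1) (PS (logDeriv fun s => Q s α))

lemma lam_eq (n : ℕ) (α : ℂ) : lam (n + 1) α = qf (n + 1) α - ((cc n : ℝ) : ℂ) := by
  have hG0 : Complex.Gamma (0 + 1) ≠ 0 := by rw [zero_add, Complex.Gamma_one]; exact one_ne_zero
  have hQ0 : Q 0 α ≠ 0 := by rw [Q_zero]; exact one_ne_zero
  have h0 : gst 0 α = 1 := by
    rw [gst, Q_zero, zero_add, Complex.Gamma_one, div_one]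
  have han : AnalyticAt ℂ (fun s => gst s α) 0 := (Q_an α).1.div Gam_an hG0
  rw [lam, iteratedDeriv_log han (by simp only [h0]; exact Complex.one_mem_slitPlane)]
  have h1 : PS (logDeriv fun s => gst s α) = PS (logDeriv fun s => Q s α) - PS (logDeriv fun s => Complex.Gamma (s + 1)) :=
    PS_logDeriv_div (Q_an α).1 Gam_an hQ0 hG0
  rw [h1, map_sub, PS_Gam, PowerSeries.coeff_mk, qf, Nat.add_sub_cancel]
  have h4 : (n.factorial : ℂ) ≠ 0 := by exact_mod_cast n.factorial_ne_zero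
  push_cast
  field_simp

lemma qf_zero (n : ℕ) : qf (n + 1) 0 = 0 := by
  have h1 : (fun s => Q s 0) = fun _ => (1 : ℂ) := funext Q_arg_zero
  have h2 : logDeriv (fun _ : ℂ => (1 : ℂ)) = fun _ => 0 := by
    funext s
    rw [logDeriv_apply]
    simp
  rw [qf, h1, h2, PS, PowerSeries.coeff_mk, iteratedDeriv_const]
  simp

lemma lam_zero (n : ℕ) : lam (n + 1) 0 = -((cc n : ℝ) : ℂ) := by
  rw [lam_eq, qf_zero, zero_sub]

lemma lam_sub (n : ℕ) (α : ℂ) : lam (n + 1) α - lam (n + 1) 0 = qf (n + 1) α := by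
  rw [lam_eq, lam_zero]
  ring

lemma lam_one_zero : lam 1 0 = (Real.eulerMascheroniConstant : ℂ) := by
  rw [lam_zero, cc]
  push_cast
  ring

lemma lam_zero_zeta (n : ℕ) : lam (n + 2) 0 = (-1) ^ (n + 1) * (n + 1).factorial * ((zt (n + 2) : ℝ) : ℂ) := by
  rw [lam_zero, cc]
  push_cast
  ring

/-- the recursion -/
lemma qf_rec (α : ℂ) (n : ℕ) : ((n : ℂ) + 1) * aQ α (n + 1) =
    ∑ p ∈ Finset.HasAntidiagonal.antidiagonal n, aQ α p.1 * (qf (p.2 + 1) α / p.2.factorial) := by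
  have h1 := (PS_logDeriv (Q_an α).1 (show Q 0 α ≠ 0 by rw [Q_zero]; exact one_ne_zero)).2
  have h2 := congrArg (PowerSeries.coeff n) h1
  rw [PowerSeries.coeff_mul, PowerSeries.coeff_derivative, (Q_an α).2] at h2
  simp only [PowerSeries.coeff_mk] at h2
  rw [mul_comm, ← h2]
  refine Finset.sum_congr rfl fun p _ => ?_
  rw [qf, Nat.add_sub_cancel]
  have h4 : (p.2.factorial : ℂ) ≠ 0 := by exact_mod_cast p.2.factorial_ne_zero
  field_simp

end Pool.Agent.W5h35.GB
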